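import Mathlib

namespace Pool.Agent.Results.MP_d9e015_nt.Yes

def R : Subring ℚ where
  carrier := {q | Odd q.den}
  mul_mem' {a b} ha hb := Odd.of_dvd_nat (Odd.mul ha hb) (Rat.mul_den_dvd a b)
  add_mem' {a b} ha hb := Odd.of_dvd_nat (Odd.mul ha hb) (Rat.add_den_dvd a b)
  one_mem' := by simp
  zero_mem' := by simp
  neg_mem' {a} ha := by simpa using ha

lemma inv_mem (o : ℕ) (h : Odd o) : ((o : ℚ))⁻¹ ∈ R := by
  change Odd _
  rw [Rat.inv_natCast_den_of_pos h.pos]; exact h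

lemma split (s : ℚ) (hs : s ∈ R) : s / 2 ∈ R ∨ (s - 1) / 2 ∈ R := by
  have h := inv_mem s.den hs
  have h0 : (s.den : ℚ) ≠ 0 := by positivity
  have e : s = s.num / s.den := (Rat.num_div_den s).symm
  obtain ⟨b, hb⟩ : Odd s.den := hs
  rcases Int.even_or_odd' s.num with ⟨a, ha | ha⟩
  · left
    rw [show s / 2 = a * (s.den : ℚ)⁻¹ by nth_rw 1 [e]; rw [ha]; push_cast; field_simp]
    exact mul_mem (intCast_mem _ _) h
  · right
    rw [show (s - 1) / 2 = (a - b) * (s.den : ℚ)⁻¹ by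
      nth_rw 1 [e]; rw [ha]; field_simp; rw [hb]; push_cast; ring]
    exact mul_mem (sub_mem (intCast_mem _ _) (natCast_mem _ _)) h

def St (Y A B : ℚ) : Prop := ∃ s ∈ R, Y = A + B * s

def ok (A B c A' B' : ℚ) : Bool := B' != 0 && ((A + A ^ 2 / c ^ 2 - A') / B').den % 2 == 1 &&
  ((B + 2 * A * B / c ^ 2) / B').den % 2 == 1 && (B ^ 2 / c ^ 2 / B').den % 2 == 1

lemma step {Y A B c A' B' : ℚ} (h : St Y A B) (hk : ok A B c A' B' = true) :
    St (Y + Y ^ 2 / c ^ 2) A' B' := by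
  obtain ⟨s, hs, rfl⟩ := h
  simp only [ok, Bool.and_eq_true, bne_iff_ne, beq_iff_eq, ← Nat.odd_iff] at hk
  obtain ⟨⟨⟨h0, h1⟩, h2⟩, h3⟩ := hk
  refine ⟨_, add_mem (show _ ∈ R from h1) (add_mem (mul_mem (show _ ∈ R from h2) hs)
    (mul_mem (show _ ∈ R from h3) (pow_mem hs 2))), ?_⟩
  rw [mul_add, mul_add, ← mul_assoc, ← mul_assoc, mul_div_cancel₀ _ h0, mul_div_cancel₀ _ h0,
    mul_div_cancel₀ _ h0]
  ring

lemma St.split {Y A B : ℚ} (h : St Y A B) : St Y A (2 * B) ∨ St Y (A + B) (2 * B) := by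
  obtain ⟨s, hs, rfl⟩ := h
  rcases Yes.split s hs with h | h
  · exact Or.inl ⟨_, h, by ring⟩
  · exact Or.inr ⟨_, h, by ring⟩

def inv (o M : ℕ) : ℕ → ℕ → ℕ
  | 0, x => x
  | i + 1, x => inv o M i (x * (2 + (M - o) * x) % M)

def go : ℕ → ℕ → ℕ → Bool
  | 0, _, A => A % 32768 == 16384
  | f + 1, n, A =>
    let q : ℚ := (A : ℚ) / n
    let M := 2 ^ (8 * (f + 2))
    let A' := (A + (q.num.natAbs * inv q.den M 12 1) ^ 2) % M
    q.den % 2 == 1 && ((256 * M : ℕ) / n : ℚ).den % 2 == 1 && ok A (256 * M : ℕ) n A' M &&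
      go f (n + 1) A'

lemma half (m n : ℕ) (h : ¬ 2 ^ (m + 1) ∣ n) : (2 ^ m / n : ℚ) ∈ R := by
  obtain ⟨w, o, ho, rfl⟩ := Nat.exists_eq_two_pow_mul_odd (n := n) (by rintro rfl; simp at h)
  obtain ⟨d, rfl⟩ : ∃ d, m = w + d := Nat.exists_eq_add_of_le (by
    by_contra hc
    exact h (Dvd.dvd.mul_right (pow_dvd_pow 2 (by omega)) _))
  rw [show (2 ^ (w + d) / (2 ^ w * o : ℕ) : ℚ) = 2 ^ d * (o : ℚ)⁻¹ by push_cast; field_simp; ring]
  exact mul_mem (pow_mem (ofNat_mem _ 2) _) (inv_mem o ho)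

def Good (y : ℕ → ℚ) (N : ℕ) : Prop := ∀ i, 1 ≤ i → i ≤ N → y i / i ∈ R

def ok2 (A B c A' B' : ℚ) : Bool := ok A (2 * B) c A' B' && ok (A + B) (2 * B) c A' B' &&
  B' != 0 && (4 * A' ^ 2 / B').den % 2 == 1 && (A' / 16).den % 2 == 1 && (B' / 16).den % 2 == 1

variable {y : ℕ → ℚ} (hy : ∀ n, 1 ≤ n → y (n + 1) = y n + y n ^ 2 / (n : ℚ) ^ 2)
include hy

lemma go_ok (f : ℕ) : ∀ n A : ℕ, 1 ≤ n → St (y n) A (2 ^ (8 * (f + 2)) : ℕ) → go f n A = true →
    (∀ i, n ≤ i → i < n + f → y i / i ∈ R) ∧ St (y (n + f)) 16384 32768 := by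
  induction f with
  | zero =>
    rintro n A - ⟨s, hs, h⟩ hg
    simp only [go, beq_iff_eq] at hg
    refine ⟨fun i _ _ => by omega, (A / 32768 : ℕ) + 2 * s,
      add_mem (natCast_mem _ _) (mul_mem (ofNat_mem _ 2) hs), ?_⟩
    rw [add_zero, h]
    nth_rw 1 [← Nat.div_add_mod A 32768, hg]
    generalize A / 32768 = t
    push_cast; ring
  | succ f ih =>
    intro n A hn h hg
    simp only [go, Bool.and_eq_true, beq_iff_eq, ← Nat.odd_iff] at hg
    obtain ⟨⟨⟨h1, h2⟩, h3⟩, h4⟩ := hg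
    rw [show 2 ^ (8 * (f + 1 + 2)) = 256 * 2 ^ (8 * (f + 2)) by ring] at h
    generalize (A + (((A : ℚ) / n).num.natAbs * inv ((A : ℚ) / n).den (2 ^ (8 * (f + 2))) 12 1) ^ 2) %
      2 ^ (8 * (f + 2)) = A' at h3 h4
    have h7 := step h h3
    rw [← hy n hn] at h7
    obtain ⟨h5, h6⟩ := ih (n + 1) A' (by omega) h7 h4
    refine ⟨fun i a b => ?_, by rwa [show n + (f + 1) = n + 1 + f by ring]⟩
    rcases a.eq_or_lt with rfl | a
    · obtain ⟨s, hs, e⟩ := h
      rw [e, add_div, mul_div_right_comm]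
      exact add_mem (show _ ∈ R from h1) (mul_mem (show _ ∈ R from h2) hs)
    · exact h5 i a (by omega)

lemma blk (m c : ℕ) (hm : 1 ≤ m) (hc : 1 ≤ c ∧ c < 32) {A B A' B' : ℚ}
    (hk : ok2 A B c A' B' = true) (h : Good y (c * 2 ^ m) ∧ St (y (c * 2 ^ m) / 4 ^ m) A B) :
    Good y ((c + 1) * 2 ^ m) ∧ St (y ((c + 1) * 2 ^ m) / 4 ^ m) A' B' := by
  simp only [ok2, Bool.and_eq_true, bne_iff_ne, beq_iff_eq, ← Nat.odd_iff] at hk
  obtain ⟨⟨⟨⟨⟨k1, k2⟩, k3⟩, k4⟩, k5⟩, k6⟩ := hk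
  have hp : 0 < 2 ^ m := by positivity
  have e4 : (4 : ℚ) ^ m = (2 ^ m) ^ 2 := by rw [← pow_mul, mul_comm, pow_mul]; norm_num
  have h16 : ∀ q : ℚ, q / 16 ∈ R → q ∈ R := fun q hq => by
    simpa using mul_mem hq (ofNat_mem R 16)
  have key : ∀ i, 1 ≤ i → i ≤ 2 ^ m → St (y (c * 2 ^ m + i) / 4 ^ m) A' B' := by
    intro i h1
    induction i, h1 using Nat.le_induction with
    | base =>
      intro _
      have : (c : ℚ) ≠ 0 := by have := hc.1; positivity
      rw [hy _ (Nat.mul_pos hc.1 hp), show (y (c * 2 ^ m) + y (c * 2 ^ m) ^ 2 / (c * 2 ^ m : ℕ) ^ 2) /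
        4 ^ m = y (c * 2 ^ m) / 4 ^ m + (y (c * 2 ^ m) / 4 ^ m) ^ 2 / c ^ 2 by
          rw [e4]; push_cast; field_simp]
      exact h.2.split.elim (fun g => step g k1) fun g => step g k2
    | succ i h1 ih =>
      intro h2
      obtain ⟨s, hs, e⟩ := ih (by omega)
      obtain ⟨k, rfl⟩ : ∃ k, m = k + 1 := ⟨m - 1, by omega⟩
      have ht := half k (c * 2 ^ (k + 1) + i) fun hd =>
        absurd (Nat.le_of_dvd h1 ((Nat.dvd_add_right (Dvd.intro_left _ rfl)).1 hd)) (by omega)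
      refine ⟨s + (4 * A' ^ 2 / B' + 8 * A' * s + 4 * B' * s ^ 2) *
        (2 ^ k / (c * 2 ^ (k + 1) + i : ℕ)) ^ 2, add_mem hs (mul_mem (add_mem (add_mem k4
          (mul_mem (mul_mem (ofNat_mem _ 8) (h16 _ k5)) hs)) (mul_mem (mul_mem (ofNat_mem _ 4)
          (h16 _ k6)) (pow_mem hs 2))) (pow_mem ht 2)), ?_⟩
      rw [← add_assoc, hy _ (by omega), (div_eq_iff (by positivity)).1 e, e4]
      have : ((c * 2 ^ (k + 1) + i : ℕ) : ℚ) ≠ 0 := by positivity
      generalize ((c * 2 ^ (k + 1) + i : ℕ) : ℚ) = N at *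
      field_simp
      ring
  refine ⟨fun i a b => ?_, by rw [add_mul, one_mul]; exact key _ hp le_rfl⟩
  by_cases hi : i ≤ c * 2 ^ m
  · exact h.1 i a hi
  · obtain ⟨j, rfl⟩ : ∃ j, i = c * 2 ^ m + j := ⟨i - c * 2 ^ m, by omega⟩
    obtain ⟨s, hs, e⟩ := key j (by omega) (by rw [add_mul] at b; omega)
    have ht := half (2 * m + 4) (c * 2 ^ m + j) fun hd => by
      have h3 := Nat.le_of_dvd a hd
      have h4 : 2 ^ 1 ≤ 2 ^ m := Nat.pow_le_pow_right two_pos hm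
      rw [show 2 ^ (2 * m + 4 + 1) = 32 * 2 ^ m * 2 ^ m by ring] at h3
      nlinarith [hc.2]
    rw [(div_eq_iff (by positivity)).1 e, show (A' + B' * s) * 4 ^ m / (c * 2 ^ m + j : ℕ) =
      (A' / 16 + B' / 16 * s) * (2 ^ (2 * m + 4) / (c * 2 ^ m + j : ℕ)) by rw [e4]; ring]
    exact mul_mem (add_mem k5 (mul_mem k6 hs)) ht

lemma all (h1 : y 1 = 2) (m : ℕ) :
    Good y (16 * 2 ^ (m + 4)) ∧ St (y (16 * 2 ^ (m + 4)) / 4 ^ (m + 4)) 64 128 := by
  induction m with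
  | zero =>
    obtain ⟨a, s, hs, e⟩ := go_ok hy 255 1 2 le_rfl ⟨0, zero_mem _, by
      rw [h1, mul_zero, add_zero, Nat.cast_ofNat]⟩ (by decide +kernel)
    norm_num at e ⊢
    refine ⟨fun i p q => ?_, s, hs, by rw [e]; ring⟩
    rcases q.lt_or_eq with q | rfl
    · exact a i p q
    · rw [e, show (16384 + 32768 * s) / (256 : ℕ) = 64 + 128 * s by push_cast; ring]
      exact add_mem (ofNat_mem _ 64) (mul_mem (ofNat_mem _ 128) hs)
  | succ m h0 =>
    have h1 := blk hy (m + 4) 16 (by omega) (by norm_num) (A' := 80) (B' := 128)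
      (by decide +kernel) h0
    have h2 := blk hy (m + 4) 17 (by omega) (by norm_num) (A' := 80) (B' := 128)
      (by decide +kernel) h1
    have h3 := blk hy (m + 4) 18 (by omega) (by norm_num) (A' := 16) (B' := 128)
      (by decide +kernel) h2
    have h4 := blk hy (m + 4) 19 (by omega) (by norm_num) (A' := 16) (B' := 128)
      (by decide +kernel) h3
    have h5 := blk hy (m + 4) 20 (by omega) (by norm_num) (A' := 32) (B' := 128)
      (by decide +kernel) h4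
    have h6 := blk hy (m + 4) 21 (by omega) (by norm_num) (A' := 32) (B' := 128)
      (by decide +kernel) h5
    have h7 := blk hy (m + 4) 22 (by omega) (by norm_num) (A' := 32) (B' := 128)
      (by decide +kernel) h6
    have h8 := blk hy (m + 4) 23 (by omega) (by norm_num) (A' := 32) (B' := 128)
      (by decide +kernel) h7
    have h9 := blk hy (m + 4) 24 (by omega) (by norm_num) (A' := 432) (B' := 512)
      (by decide +kernel) h8
    have h10 := blk hy (m + 4) 25 (by omega) (by norm_num) (A' := 176) (B' := 512)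
      (by decide +kernel) h9
    have h11 := blk hy (m + 4) 26 (by omega) (by norm_num) (A' := 240) (B' := 512)
      (by decide +kernel) h10
    have h12 := blk hy (m + 4) 27 (by omega) (by norm_num) (A' := 496) (B' := 512)
      (by decide +kernel) h11
    have h13 := blk hy (m + 4) 28 (by omega) (by norm_num) (A' := 256) (B' := 512)
      (by decide +kernel) h12
    have h14 := blk hy (m + 4) 29 (by omega) (by norm_num) (A' := 256) (B' := 512)
      (by decide +kernel) h13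
    have h15 := blk hy (m + 4) 30 (by omega) (by norm_num) (A' := 256) (B' := 512)
      (by decide +kernel) h14
    have h16 := blk hy (m + 4) 31 (by omega) (by norm_num) (A' := 256) (B' := 512)
      (by decide +kernel) h15
    rw [show 16 * 2 ^ (m + 1 + 4) = (31 + 1) * 2 ^ (m + 4) by ring]
    obtain ⟨a, s, hs, e⟩ := h16
    exact ⟨a, s, hs, by rw [pow_succ' 4 (m + 4), mul_comm (4 : ℚ), ← div_div, e]; ring⟩

omit hy in
theorem result (x : ℕ → ℚ) (h0 : x 0 = 1)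
    (hx : ∀ n, 1 ≤ n → x n = (1 + ∑ i ∈ Finset.range n, x i ^ 2) / n) (n : ℕ) : Odd (x n).den := by
  rcases Nat.eq_zero_or_pos n with rfl | hn
  · simp [h0]
  · rw [hx n hn]
    refine (all (y := fun n => 1 + ∑ i ∈ Finset.range n, x i ^ 2) (fun n hn => ?_)
      (by simp [h0]; norm_num) n).1 n hn ?_
    · rw [Finset.sum_range_succ, ← div_pow, ← hx n hn, add_assoc]
    · have := Nat.lt_two_pow_self (n := n + 4)
      omega

end Pool.Agent.Results.MP_d9e015_nt.Yes
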